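import Pool.Agent.Helper83.PF.St

set_option autoImplicit false

open Set Filter Topology
open Helper85.HN (hen Orb Bd KK E0)
open Helper83.PE (vv Wu win Cross Covs)

namespace Pool.Agent.Helper17.PF

open Helper83.PF

theorem hHet (h1 : StArc) (h2 : StRect) (h3 : StPass) : StHet := by
  intro g U1 S1 U2 S2 N1 N2 X1 Y1 X2 Y2 r1 l1 L1 T1 r2 l2 L2 T2 tA tB m1 m2 hg B1 B2 C12 C21 β hβ η hη
  obtain ⟨s1, s2, -, hs1, hs1B, hBs2, -, hs2T, arc2⟩ :=
    h1 g U2 T2 N1 X1 Y1 r1 tB m2 hg B1.opn B1.cX.continuousOn B1.cY B2.cU C21 β hβ 1 one_pos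
  obtain ⟨ε, ρ, hεr, wd⟩ := h2 g U2 S2 N2 X2 Y2 r2 l2 L2 T2 N1 X1 Y1 r1 β s1 s2 m2 hg B2 B1.opn
    B1.cX.continuousOn B1.cY hs1 hs2T arc2
  have hs12 : s1 < s2 := arc2.lt
  have hT2 := B2.ht
  have ha1 : 0 < X2 (U2 s1) := by
    have := B2.wuX (left_mem_Icc.mpr hT2.le) (show s1 ∈ Icc 0 T2 from ⟨hs1.le, by linarith⟩) hs1
    simp only at this
    rw [B2.wu0] at this
    exact this
  have ha12 : X2 (U2 s1) < X2 (U2 s2) :=
    B2.wuX (show s1 ∈ Icc 0 T2 from ⟨hs1.le, by linarith⟩)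
      (show s2 ∈ Icc 0 T2 from ⟨by linarith, hs2T.le⟩) hs12
  have ha2 : X2 (U2 s2) ≤ r2 / L2 := (B2.wu s2 ⟨by linarith, hs2T.le⟩).2.2
  obtain ⟨t1, t2, ht1, ht1p, -, -, ht2, ht2T, arc1⟩ :=
    h1 g U1 T1 N2 X2 Y2 r2 tA m1 hg B2.opn B2.cX.continuousOn B2.cY B1.cU C12 _ ha1 η hη
  set p1 : ℝ := X2 (g^[m1] (U1 t1)) with hp1
  set p2 : ℝ := X2 (g^[m1] (U1 t2)) with hp2
  have hsg := arc1.sg
  rw [← hp1, ← hp2] at hsg
  have hp10 : p1 ≠ 0 := by
    rintro h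
    rw [h] at hsg
    simp at hsg
  have hp20 : p2 ≠ 0 := by
    rintro h
    rw [h] at hsg
    simp at hsg
  have hρ' : 0 < min |p1| |p2| := lt_min (abs_pos.mpr hp10) (abs_pos.mpr hp20)
  obtain ⟨n0, -, hn0⟩ := h3 g U2 S2 N2 X2 Y2 r2 l2 L2 T2 hg B2 _ _ _ ha1 ha12 ha2 hρ'
  obtain ⟨n1, hn1⟩ : ∃ n1 : ℕ, ∀ n, n1 ≤ n → r2 / l2 ^ n ≤ ε := by
    have hlim : Tendsto (fun n : ℕ => r2 / l2 ^ n) atTop (𝓝 0) := by
      have h := tendsto_pow_atTop_nhds_zero_of_lt_one (r := l2⁻¹) (by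
        have := B2.hl
        positivity) (by
        have := B2.hl
        exact inv_lt_one_of_one_lt₀ this)
      have h' := h.const_mul r2
      rw [mul_zero] at h'
      refine h'.congr fun n => ?_
      rw [inv_pow]
      rfl
    have hev := hlim.eventually (gt_mem_nhds wd.h7)
    obtain ⟨n1, hn1⟩ := eventually_atTop.mp hev
    exact ⟨n1, fun n hn => (hn1 n hn).le⟩
  set n := max n0 n1 with hn
  have hcγ : ContinuousOn (fun s => g^[m1] (U1 s)) (Icc t1 t2) := by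
    apply (hg.iterate m1).comp_continuousOn
    exact B1.cU.mono (Icc_subset_Icc ht1p.le ht2T.le)
  obtain ⟨α', β', hα, hαβ, hβ', hin, hends⟩ := hn0 n (le_max_left _ _) (fun s => g^[m1] (U1 s)) t1 t2
    arc1.lt.le hcγ (fun s hs => ⟨(arc1.inn s hs).1, (arc1.inn s hs).2.1.le, (arc1.inn s hs).2.2.le⟩) (by
      rw [← hp1, ← hp2]
      rcases lt_or_gt_of_ne hp10 with h | h
      · left
        refine ⟨h.le, ?_⟩
        have : 0 < p2 := by
          by_contra hcon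
          push Not at hcon
          nlinarith
        exact (min_le_right _ _).trans (le_of_eq (abs_of_pos this))
      · right
        refine ⟨(min_le_left _ _).trans (le_of_eq (abs_of_pos h)), ?_⟩
        by_contra hcon
        push Not at hcon
        nlinarith)
  have hwin : ∀ s ∈ Icc α' β', g^[n] (g^[m1] (U1 s)) ∈
      win N2 X2 Y2 (X2 (U2 s1)) (X2 (U2 s2)) ε := by
    intro s hs
    obtain ⟨hj, hb⟩ := hin s hs
    obtain ⟨hj1, hj2, hj3, hj4⟩ := hj n le_rfl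
    exact ⟨hj1, hb, hj3, hj4.trans (hn1 n (le_max_right _ _))⟩
  have hit : ∀ s, g^[m2 + n + m1] (U1 s) = g^[m2] (g^[n] (g^[m1] (U1 s))) := by
    intro s
    rw [Function.iterate_add_apply, Function.iterate_add_apply]
  have hwα := hwin α' (left_mem_Icc.mpr hαβ)
  have hwβ := hwin β' (right_mem_Icc.mpr hαβ)
  have hρ := wd.h9
  have hprod : X1 (g^[m2 + n + m1] (U1 α')) * X1 (g^[m2 + n + m1] (U1 β')) < 0 := by
    rw [hit, hit]
    rcases wd.s with hs | hs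
    · obtain ⟨hsα1, hsα2⟩ := hs _ hwα
      obtain ⟨hsβ1, hsβ2⟩ := hs _ hwβ
      rcases hends with ⟨e1, e2⟩ | ⟨e1, e2⟩
      · have q1 := hsα1 e1
        have q2 := hsβ2 e2
        nlinarith
      · have q1 := hsα2 e1
        have q2 := hsβ1 e2
        nlinarith
    · obtain ⟨hsα1, hsα2⟩ := hs _ hwα
      obtain ⟨hsβ1, hsβ2⟩ := hs _ hwβ
      rcases hends with ⟨e1, e2⟩ | ⟨e1, e2⟩
      · have q1 := hsα1 e1
        have q2 := hsβ2 e2
        nlinarith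
      · have q1 := hsα2 e1
        have q2 := hsβ1 e2
        nlinarith
  refine ⟨α', β', m2 + n + m1, by linarith, by linarith, by linarith, by linarith, ?_⟩
  refine ⟨?_, ?_, hprod⟩
  · rcases hαβ.lt_or_eq with h | h
    · exact h
    · exfalso
      rw [h] at hprod
      nlinarith [mul_self_nonneg (X1 (g^[m2 + n + m1] (U1 β')))]
  · intro t ht
    rw [hit]
    exact wd.G _ (hwin t ht)

end Pool.Agent.Helper17.PF
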