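import Pool.Agent.Helper83.PF.St

set_option autoImplicit false

open Set Filter Topology
open Helper85.HN (hen Orb Bd KK E0)
open Helper83.PE (vv Wu win Cross Covs)

namespace Pool.Agent.Helper17.PF

open Helper83.PF

theorem hRec (h1 : StRect) : StRec := by
  intro g U S N X Y r l L t0 tA hg B htA htA0 H
  have hl := B.hl
  have ht0 := B.ht
  have m0 : (0 : ℝ) ∈ Icc 0 t0 := left_mem_Icc.mpr ht0.le
  have mA : tA ∈ Icc 0 t0 := ⟨htA.le, htA0.le⟩
  have mT : t0 ∈ Icc 0 t0 := right_mem_Icc.mpr ht0.le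
  have hA0 : 0 < X (U tA) := by
    have := B.wuX m0 mA htA
    simp only at this
    rw [B.wu0] at this
    exact this
  have hAT : X (U tA) < X (U t0) := B.wuX mA mT htA0
  have hT : X (U t0) ≤ r / L := (B.wu t0 mT).2.2
  set A0 : ℝ := X (U tA) with hA0def
  set bp : ℝ := min (X (U t0)) (A0 * ((1 + l) / 2)) with hbp
  have hbp1 : A0 < bp := by
    apply lt_min hAT
    nlinarith
  have hbp2 : bp ≤ A0 * ((1 + l) / 2) := min_le_right _ _
  have hbp3 : bp ≤ r / L := (min_le_left _ _).trans hT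
  have hbpl : bp / l < A0 := by
    rw [div_lt_iff₀ (by linarith)]
    nlinarith
  set bm : ℝ := (bp / l + A0) / 2 with hbm
  have hbm1 : bm < A0 := by linarith
  have hbm2 : bp / l < bm := by linarith
  have hbm3 : bp < l * bm := by
    rw [div_lt_iff₀ (by linarith)] at hbm2
    linarith
  have hbm0 : 0 < bm := by
    have : 0 < bp / l := div_pos (by linarith) (by linarith)
    linarith
  have hcont : ContinuousAt (fun t => X (U t)) tA := by
    have hc : ContinuousOn (fun t => X (U t)) (Icc 0 t0) :=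
      B.cX.continuousOn.comp B.cU (fun t ht => (B.wu t ht).1)
    exact hc.continuousAt (Icc_mem_nhds htA htA0)
  have hev : ∀ᶠ t in 𝓝 tA, bm < X (U t) ∧ X (U t) < bp :=
    (hcont.eventually (lt_mem_nhds hbm1)).and (hcont.eventually (gt_mem_nhds hbp1))
  obtain ⟨η, hη, hηs⟩ := Metric.eventually_nhds_iff.mp hev
  obtain ⟨a, b, m, ha1, ha0, hb1, hb0, arc⟩ := H bm hbm0 η hη
  have hab := arc.lt
  have hbd : ∀ t ∈ Icc a b, bm < X (U t) ∧ X (U t) < bp := by
    intro t ht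
    apply hηs
    rw [Real.dist_eq, abs_lt]
    exact ⟨by linarith [ht.1], by linarith [ht.2]⟩
  obtain ⟨ε, ρ, hεr, wd⟩ := h1 g U S N X Y r l L t0 N X Y r bm a b m hg B B.opn
    B.cX.continuousOn B.cY ha0 hb0 arc
  have mIcc : ∀ t ∈ Icc a b, t ∈ Icc 0 t0 := fun t ht => ⟨by linarith [ht.1], by linarith [ht.2]⟩
  have ma : a ∈ Icc a b := left_mem_Icc.mpr hab.le
  have mb : b ∈ Icc a b := right_mem_Icc.mpr hab.le
  refine ⟨m, X (U a), X (U b), bm, bp, ε, ρ, ?_⟩
  refine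
    { h1 := hbm0
      h2 := (hbd a ma).1
      h3 := B.wuX (mIcc a ma) (mIcc b mb) hab
      h4 := (hbd b mb).2
      h5 := hbp3
      h6 := hbm3
      h7 := wd.h7
      h8 := hεr
      h9 := wd.h9
      G := fun z hz => ⟨(wd.G z hz).1, (wd.G z hz).2.1.le, (wd.G z hz).2.2.le⟩
      s := wd.s
      i := ⟨U, a, b, hab.le, B.cU.mono mIcc, ?_, Or.inl ⟨rfl, rfl⟩⟩ }
  intro s hs
  refine ⟨(B.wu s (mIcc s hs)).1, ?_, ?_, ?_⟩
  · exact B.wuX.monotoneOn (mIcc a ma) (mIcc s hs) hs.1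
  · exact B.wuX.monotoneOn (mIcc s hs) (mIcc b mb) hs.2
  · rw [(B.wu s (mIcc s hs)).2.1, abs_zero]
    exact wd.h7.le

end Pool.Agent.Helper17.PF
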