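import Pool.Agent.Helper83.PF.St

set_option autoImplicit false

open Set Filter Topology
open Helper85.HN (hen Orb Bd KK E0)
open Helper83.PE (vv Wu win Cross Covs)

namespace Pool.Agent.Helper17.PF

open Helper83.PF

lemma notE0_interior_of {b0 c δ : ℝ} (hδ : 0 < δ)
    (h : ∀ b' c' : ℝ, |b' - b0| < δ → |c' - c| < δ → (b', c') ∉ E0) :
    (b0, c) ∈ interior E0ᶜ := by
  rw [mem_interior_iff_mem_nhds, Metric.mem_nhds_iff]
  refine ⟨δ, hδ, ?_⟩
  rintro ⟨b', c'⟩ hq
  rw [Metric.mem_ball, Prod.dist_eq, max_lt_iff, Real.dist_eq, Real.dist_eq] at hq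
  exact h b' c' hq.1 hq.2

lemma frontier_not_interior {q : ℝ × ℝ} (hq : q ∈ frontier E0) : q ∉ interior E0ᶜ := by
  intro h
  rw [← frontier_compl] at hq
  exact hq.2 h

lemma uni_aux (h3 : StHor) (h4 : Helper85.HN.StTop) (b0 p2 : ℝ) (hb0 : |b0| = 1)
    (hp2 : p2 = (1 + b0) ^ 2 / 4)
    (hloc : ∀ c, c < p2 → ∃ δ > 0, ∀ b' c' : ℝ, |b' - b0| < δ → |c' - c| < δ → (b', c') ∉ E0)
    (η : ℝ) (hη : 0 < η) : ∃ δ > 0, ∀ q ∈ frontier E0, |q.1 - b0| < δ → dist q (b0, p2) < η := by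
  set K : Set (ℝ × ℝ) := {b0} ×ˢ Icc (-36) (p2 - η / 2) with hK
  have hKc : IsCompact K := isCompact_singleton.prod isCompact_Icc
  have hKs : K ⊆ interior E0ᶜ := by
    rintro ⟨b, c⟩ ⟨hb, hc⟩
    simp only [mem_singleton_iff] at hb
    subst hb
    simp only [mem_Icc] at hc
    obtain ⟨δ, hδ, h⟩ := hloc c (by linarith [hc.2])
    exact notE0_interior_of hδ h
  obtain ⟨δ₁, hδ₁, hth⟩ := hKc.exists_thickening_subset_open isOpen_interior hKs
  refine ⟨min δ₁ (min (1 / 2) (η / 4)), by positivity, ?_⟩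
  rintro ⟨b, c⟩ hq hqb
  simp only [lt_min_iff] at hqb
  obtain ⟨hb1, hb2, hb3⟩ := hqb
  have hni := frontier_not_interior hq
  have hb0' : -1 ≤ b0 ∧ b0 ≤ 1 := abs_le.mp hb0.le
  obtain ⟨hbl, hbu⟩ := abs_lt.mp hb2
  have habs1 : |b| < 2 := by
    rw [abs_lt]
    constructor <;> linarith [hb0'.1, hb0'.2]
  have hne : b ≠ 0 := by
    rintro rfl
    rw [zero_sub, abs_neg, hb0] at hb2
    norm_num at hb2
  have hc36 : -36 ≤ c := by
    by_contra hcon
    push Not at hcon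
    apply hni
    rw [mem_interior]
    refine ⟨{q : ℝ × ℝ | q.1 ≠ 0 ∧ |q.1| < 2 ∧ q.2 < -36}, ?_, ?_, ⟨hne, habs1, hcon⟩⟩
    · rintro ⟨b', c'⟩ ⟨h1, h2, h3'⟩
      simp only at h1 h2 h3'
      have := h3 b' c' h1 h2.le h3'.le
      intro hmem
      exact absurd hmem (not_le.mpr this)
    · exact (isOpen_ne_fun continuous_fst continuous_const).inter
        ((isOpen_lt (continuous_abs.comp continuous_fst) continuous_const).inter
          (isOpen_lt continuous_snd continuous_const))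
  have hc1 : p2 - η / 2 < c := by
    by_contra hcon
    push Not at hcon
    apply hni
    apply hth
    rw [Metric.mem_thickening_iff]
    refine ⟨(b0, c), ⟨rfl, hc36, hcon⟩, ?_⟩
    rw [Prod.dist_eq, Real.dist_eq, dist_self]
    exact max_lt hb1 hδ₁
  have hc2 : c ≤ (1 + b) ^ 2 / 4 := (h4.1 (b, c) hq).1
  have hc3 : (1 + b) ^ 2 / 4 < p2 + η / 2 := by
    rw [hp2]
    obtain ⟨h1, h2⟩ := abs_lt.mp hb3
    obtain ⟨h5, h6⟩ := abs_lt.mp habs1
    have e : (1 + b) ^ 2 / 4 = (1 + b0) ^ 2 / 4 + (b - b0) * ((2 + b + b0) / 4) := by ring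
    have h7 : (b - b0) * ((2 + b + b0) / 4) ≤ |b - b0| * (5 / 4) := by
      calc (b - b0) * ((2 + b + b0) / 4) ≤ |(b - b0) * ((2 + b + b0) / 4)| := le_abs_self _
        _ = |b - b0| * |(2 + b + b0) / 4| := abs_mul _ _
        _ ≤ |b - b0| * (5 / 4) := by
          apply mul_le_mul_of_nonneg_left _ (abs_nonneg _)
          rw [abs_le]
          constructor <;> linarith [hb0'.1, hb0'.2]
    rw [e]
    have := abs_nonneg (b - b0)
    nlinarith
  rw [Prod.dist_eq, Real.dist_eq, Real.dist_eq]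
  apply max_lt
  · simp only
    linarith
  · simp only
    rw [abs_lt]
    constructor <;> linarith

theorem hUni (h1 : Helper83.PE.StFinA) (h2 : StNbM) (h3 : StHor) (h4 : Helper85.HN.StTop) :
    StUni := by
  intro η hη
  obtain ⟨δ₁, hδ₁, hd₁⟩ := uni_aux h3 h4 1 1 (by norm_num) (by norm_num) h1 η hη
  obtain ⟨δ₂, hδ₂, hd₂⟩ := uni_aux h3 h4 (-1) 0 (by norm_num) (by norm_num) (by
    intro c hc
    set s : ℝ := Real.sqrt (-c) with hs
    have hs0 : 0 < s := Real.sqrt_pos.mpr (by linarith)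
    have hs2 : s ^ 2 = -c := Real.sq_sqrt (by linarith)
    set w : ℝ := Real.sqrt (s ^ 2 + 1) with hw
    have hw2 : w ^ 2 = s ^ 2 + 1 := Real.sq_sqrt (by positivity)
    have hw1 : 1 ≤ w := by
      rw [hw]
      exact Real.one_le_sqrt.mpr (by nlinarith)
    have hκ : 1 < s + w := by linarith
    have hinv : (s + w)⁻¹ = w - s := by
      have hne : s + w ≠ 0 := by linarith
      field_simp
      nlinarith
    have hqq : qq (s + w) = s := by
      rw [qq, hinv]
      ring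
    obtain ⟨δ, hδ, h⟩ := h2 (s + w) hκ
    refine ⟨δ, hδ, ?_⟩
    intro b' c' hb hc'
    have := h b' c' (by simpa using hb) (by
      rw [hqq, hs2]
      simpa [sub_eq_add_neg] using hc')
    intro hmem
    exact absurd hmem (not_le.mpr this)) η hη
  refine ⟨min δ₁ δ₂, lt_min hδ₁ hδ₂, ?_⟩
  intro q hq
  constructor
  · intro h
    exact hd₁ q hq (h.trans_le (min_le_left _ _))
  · intro h
    exact hd₂ q hq (by
      rw [sub_neg_eq_add]
      exact h.trans_le (min_le_right _ _))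

end Pool.Agent.Helper17.PF
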